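import Pool.Agent.H97.OC.Stmts

/-!
# Theorem OC in codimension `c`: definitions

As in `Pool.OC`, but the heights are vectors: `be`, `N`, `S` have `c` components; `y`, `om` are the
tangential position and velocity (one coordinate). `bt` is the normal velocity in the frame of the
time `t`. `(H3')` replaces `(H3)`: the tangential velocity is nearly independent of the position
and of the normal velocity at any time.
-/

set_option autoImplicit false

namespace Pool.OCM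

open Finset Real
open Pool.Agent.H49.Ent Pool.Agent.H32.Dense Pool.STK Pool.KAF

/-- The data of the theorem. -/
structure DatV (c : ℕ) where
  Om : Type
  Lam : Type
  Tau : Type
  [fin : Fintype Om]
  P : Om → ℝ
  L : Om → Lam
  T : Om → Tau
  y : Lam → ℤ
  om : Lam → ℤ
  be : Lam → Fin c → ℤ
  N : Om → Fin c → ℤ
  th : Tau → ℝ
  S : Tau → Fin c → ℝ
  X : ℕ

attribute [instance] DatV.fin

namespace DatV

variable {c : ℕ} (d : DatV c)

/-- The tangential position at time zero. -/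
noncomputable def yR (l : d.Lam) : ℝ := d.y l / 2 ^ d.X

/-- The tangential velocity. -/
noncomputable def omR (l : d.Lam) : ℝ := d.om l / 2 ^ d.X

/-- The normal velocity. -/
noncomputable def beR (l : d.Lam) (i : Fin c) : ℝ := d.be l i / 2 ^ d.X

/-- The digits of the line. -/
def V (l : d.Lam) : ℤ × ℤ × (Fin c → ℤ) := (d.y l, d.om l, d.be l)

/-- The difference of the normal positions at the times `t₀` and `t₁`. -/
noncomputable def ZR (t₁ t₀ : d.Tau) (l : d.Lam) (i : Fin c) : ℝ :=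
  (d.th t₀ - d.th t₁) * d.beR l i - (d.S t₀ i - d.S t₁ i) * d.yR l -
    (d.S t₀ i * d.th t₀ - d.S t₁ i * d.th t₁) * d.omR l

/-- The tangential position at the time `t`. -/
noncomputable def yt (t : d.Tau) (l : d.Lam) : ℝ := d.yR l + d.th t * d.omR l

/-- The normal velocity in the frame of the time `t`. -/
noncomputable def bt (t : d.Tau) (l : d.Lam) (i : Fin c) : ℝ := d.beR l i - d.S t i * d.omR l

/-- The digits of the position and of the normal velocity of the line at the time of a sample. -/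
noncomputable def Yt (t : d.Tau) (l : d.Lam) : ℤ × (Fin c → ℤ) :=
  (⌊(2 : ℝ) ^ d.X * d.yt t l⌋, fun i => ⌊(2 : ℝ) ^ d.X * d.bt t l i⌋)

/-- The row `r` of the normal position. -/
def row (r : ℕ) (ω : d.Om) : Fin c → ℤ := fun i => d.N ω i / 2 ^ (d.X - r)

/-- The first `i` digits of the time. -/
noncomputable def Ti (i : ℕ) (ω : d.Om) : ℤ := ⌊(2 : ℝ) ^ i * d.th (d.T ω)⌋

/-- Pairs of samples on one line at the scale `i`. -/
noncomputable def Qp (i : ℕ) : d.Om × d.Om → ℝ := dbl d.P (fun ω => (d.L ω, d.Ti i ω))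

/-- The basic assumptions. -/
structure OK (A : ℕ) : Prop where
  law : IsLaw d.P
  hy : ∀ ω, 0 < d.P ω → |d.yR (d.L ω)| ≤ 2 ^ A
  hom : ∀ ω, 0 < d.P ω → |d.omR (d.L ω)| ≤ 2 ^ A
  hbe : ∀ ω, 0 < d.P ω → ∀ i, |d.beR (d.L ω) i| ≤ 2 ^ A
  hN : Det d.P (fun ω => (d.L ω, d.T ω)) d.N
  hth : ∀ t, 0 ≤ d.th t ∧ d.th t < 1
  hS : ∀ t i, |d.S t i| ≤ 1
  hZ : ∀ ω ω', 0 < d.P ω → 0 < d.P ω' → d.L ω = d.L ω' → ∀ i,
    |((d.N ω' i : ℝ) - d.N ω i) - 2 ^ d.X * d.ZR (d.T ω) (d.T ω') (d.L ω) i| ≤ 8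

/-- (H1) the time is nearly independent of the line and its digits are full. -/
def H1 (ι : ℝ) : Prop :=
  Pool.KVA.MI d.P d.T d.L (fun _ => ()) ≤ ι * d.X ∧
  (1 - ι) * d.X * Real.log 2 ≤ CH d.P (d.Ti d.X) d.L

/-- (H2) the normal position is nearly independent of the line. -/
def H2 (ι : ℝ) : Prop := Pool.KVA.MI d.P d.N (fun ω => d.V (d.L ω)) d.T ≤ ι * d.X

/-- (H3') the tangential velocity is nearly independent of the data of the line at the time. -/
def H3 (ι : ℝ) : Prop :=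
  Pool.KVA.MI d.P (fun ω => d.om (d.L ω)) (fun ω => d.Yt (d.T ω) (d.L ω)) d.T ≤ ι * d.X

/-- (H4) the tangential velocity is active. -/
def H4 (ca : ℝ) : Prop := ca * d.X * Real.log 2 ≤ H d.P (fun ω => d.om (d.L ω))

/-- (H5) the blocks of rows of the normal position are not full on any large event. -/
def H5 (c₀ κ π₀ : ℝ) : Prop :=
  ∀ j : ℕ, (j + 1) * ⌊κ * d.X⌋₊ ≤ d.X → ∀ E : Set d.Om, π₀ ≤ Pr d.P E →
    CH (Pool.Agent.H49.Ent.cond d.P (fun ω => ω ∈ E) True) (d.row ((j + 1) * ⌊κ * d.X⌋₊))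
      (fun ω => (d.row (j * ⌊κ * d.X⌋₊) ω, d.T ω)) ≤ (c - c₀) * ⌊κ * d.X⌋₊ * Real.log 2

/-- (H6) for typical samples no combination of the slopes is constant on the line at any visible
precision. -/
def H6 (x₀ p₀ ε : ℝ) : Prop :=
  Pr d.P {ω | ∃ n : Fin c → ℝ, (∀ i, |n i| ≤ 1) ∧ (∃ i, |n i| = 1) ∧
    Pr (Pool.Agent.H49.Ent.cond d.P d.L (d.L ω))
      {ω' | (2 : ℝ) ^ (-(x₀ * d.X)) ≤ |∑ i, n i * (d.S (d.T ω') i - d.S (d.T ω) i)|} < p₀} ≤ ε

/-- The difference of the times of a pair. -/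
noncomputable def ta (w : d.Om × d.Om) : ℝ := d.th (d.T w.2) - d.th (d.T w.1)

/-- The slope of the path `S` between the times of a pair. -/
noncomputable def chi (t t' : d.Tau) (i : Fin c) : ℝ :=
  (d.S t' i - d.S t i) / (d.th t' - d.th t)

/-- The velocity is active at the digit `j`: seen from the line `l` the law of the velocity, given
the first `j` digits, is not concentrated near that of `l`. -/
def act (c₁ : ℝ) (k₇ j : ℕ) (l : d.Lam) : Prop :=
  c₁ ≤ Pr (Pool.Agent.H49.Ent.cond d.P (fun ω => ⌊(2 : ℝ) ^ j * d.omR (d.L ω)⌋)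
    ⌊(2 : ℝ) ^ j * d.omR l⌋) {ω | (2 : ℝ) ^ (-((j : ℤ) + k₇)) ≤ |d.omR (d.L ω) - d.omR l|}

end DatV

/-- **Theorem OC in codimension `c`.** -/
def OCMStmt (c : ℕ) : Prop :=
  ∀ (A : ℕ) (c₀ ca p₀ : ℝ), 0 < c₀ → 0 < ca → 0 < p₀ → ∃ (x₀ κ π₀ ι ε : ℝ) (X₀ : ℕ), 0 < x₀ ∧
    0 < κ ∧ κ ≤ 1 ∧ 0 < π₀ ∧ 0 < ι ∧ 0 < ε ∧ ∀ d : DatV c, d.OK A → X₀ ≤ d.X → d.H1 ι → d.H2 ι →
      d.H3 ι → d.H4 ca → d.H5 c₀ κ π₀ → d.H6 x₀ p₀ ε → False

/-! ### coordinates and rows -/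

section

variable {c : ℕ}

/-- The coordinates of a vector; `M` is the matrix of the coordinates. -/
def zc (M : Fin c → Fin c → ℝ) (v : Fin c → ℝ) (i : Fin c) : ℝ := ∑ j, M i j * v j

/-- The coordinates of an integer vector, rounded. -/
noncomputable def nz (M : Fin c → Fin c → ℝ) (n : Fin c → ℤ) (i : Fin c) : ℤ :=
  ⌊zc M (fun j => (n j : ℝ)) i⌋

/-- Size of a matrix and of its inverse. -/
def ZOK (k : ℕ) (M : Fin c → Fin c → ℝ) : Prop :=
  (∀ i j, |M i j| ≤ 2 ^ k) ∧ ∃ M' : Fin c → Fin c → ℝ, (∀ i j, |M' i j| ≤ 2 ^ k) ∧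
    (∀ v, zc M' (zc M v) = v) ∧ ∀ v, zc M (zc M' v) = v

/-- The cell of an integer vector at the level `κ`. -/
def rc {Ω : Type} (N : Ω → Fin c → ℤ) (κ : ℕ) (ω : Ω) : Fin c → ℤ :=
  fun i => N ω i / ((2 ^ κ : ℕ) : ℤ)

/-- A shift. -/
def sh {Ω : Type} (N : Ω → Fin c → ℤ) {X : ℕ} (u : Fin c → Fin (2 ^ X)) (ω : Ω) : Fin c → ℤ :=
  fun i => N ω i + ((u i : ℕ) : ℤ)

/-- The entropy of `K` rows above the level `κ` given the cell of the sample and `τ`. -/
noncomputable def rowHV {Ω θ : Type} [Fintype Ω] (p : Ω → ℝ) (N : Ω → Fin c → ℤ) (κ K : ℕ)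
    (τ : Ω → θ) (ω : Ω) : ℝ :=
  H (Pool.Agent.H49.Ent.cond p (fun v => (rc N (κ + K) v, τ v)) (rc N (κ + K) ω, τ ω)) (rc N κ)

/-- The rows are not full. -/
def low {Ω θ : Type} [Fintype Ω] (p : Ω → ℝ) (N : Ω → Fin c → ℤ) (τ : Ω → θ) (κ K : ℕ) (D : ℝ)
    (ω : Ω) : Prop :=
  rowHV p N κ K τ ω ≤ c * (K * Real.log 2) - D

open Classical in
/-- The weight of a row: the fraction of the shifts for which the rows are not full. -/
noncomputable def wtz {Ω θ : Type} [Fintype Ω] (p : Ω → ℝ) (N : Ω → Fin c → ℤ) (τ : Ω → θ)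
    (X κ K : ℕ) (D : ℝ) (ω : Ω) : ℝ :=
  (∑ u : Fin c → Fin (2 ^ X), if low p (sh N u) τ κ K D ω then (1 : ℝ) else 0) /
    (2 : ℝ) ^ (c * X)

end

/-- A choice of covectors: from the law of `(N, τ)`, the number of digits, the row, the shift, the
value of `N` and the value of `τ`. -/
abbrev Cov (c : ℕ) : Type 1 :=
  (θ : Type) → ((Fin c → ℤ) × θ → ℝ) → (X : ℕ) → ℕ → (Fin c → Fin (2 ^ X)) → (Fin c → ℤ) → θ →
    Fin c → ℝ

/-- The covectors have norm one. -/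
def Cov.Unit {c : ℕ} (C : Cov c) : Prop :=
  ∀ (θ : Type) (μ : (Fin c → ℤ) × θ → ℝ) (X r : ℕ) (u : Fin c → Fin (2 ^ X)) (n : Fin c → ℤ)
    (t : θ), ∑ i, |C θ μ X r u n t i| = 1

end Pool.OCM
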