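import Pool.Agent.H98.OCM.Defs

/-!
# Theorem OC in codimension `c`: statements of the rows
-/

set_option autoImplicit false

namespace Pool.OCM

open Finset Real
open Pool.Agent.H49.Ent Pool.Agent.H32.Dense Pool.STK Pool.KAF
open Pool.OC (sc)

/-! ### RAVS: rows which are not full are hit in one hyperplane only -/

open Classical in
/-- **RAVS.** Vector form of `Pool.OC.RowSumStmt`: `t` is the reference context, `x` all the times,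
`x0` the context of the comparison. For each row and each shift of the grid there is ONE covector,
a function of the cell of the position and of `t`, which depends on the law of `(N₂, t)` only, such
that the displacements are small in its direction whenever the rows are not full. -/
def RAVSStmt (c : ℕ) : Prop :=
  ∀ (k k1 : ℕ) (ε : ℝ), 0 < ε → ∃ D₀ : ℝ, ∀ D : ℝ, D₀ ≤ D → ∀ Kc : ℕ, ∃ K : ℕ, ∀ Fc : ℕ,
    ∃ (δ : ℝ) (r₁ : ℕ) (C : Cov c), 0 < δ ∧ C.Unit ∧ ∀ (c₀ X : ℕ) (a b : ℤ), b - a ≤ X →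
    ∀ (Ω χ χ₀ ν γ O θ : Type) [Fintype Ω] (p : Ω → ℝ) (N₁ N₂ : Ω → Fin c → ℤ) (t : Ω → θ)
      (x : Ω → χ) (x0 : Ω → χ₀) (V : Ω → ν) (Z : Ω → Ω → Fin c → ℝ) (G : ℤ → Ω → γ)
      (o : ℤ → Ω → O) (F : Finset O) (mu : Ω → ℤ) (A : Set Ω), IsLaw p → Det p x t → Det p x x0 →
      (∀ ω, 0 < p ω → ∀ i, |(N₂ ω i : ℝ) - N₁ ω i - 2 ^ X * Z ω ω i| ≤ 2 ^ c₀) →
      (∀ ω ω' v, 0 < p ω → 0 < p ω' → 0 < p v → x ω = x ω' → Z ω v = Z ω' v) →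
      (∀ ω v v', 0 < p ω → 0 < p v → 0 < p v' → V v = V v' → Z ω v = Z ω v') →
      (∀ s, Det p (fun ω => (G (s + 1) ω, x0 ω)) (G s)) →
      (∀ s, Det p (fun ω => (V ω, x0 ω)) (G s)) →
      (∀ s, Det p (fun ω => (G s ω, x ω)) (fun ω => (mu ω, ω ∈ A))) →
      (∀ s ω, o s ω ∈ F) → F.card ≤ Fc →
      (∀ s, Det p (fun ω => (G (s + K) ω, x0 ω)) (o s)) →
      (∀ s, Det p (fun ω => (o s ω, (G s ω, x0 ω))) (G (s + K))) →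
      (∀ s, ∀ ω ω', 0 < p ω → 0 < p ω' → ω ∈ A → 0 ≤ s + mu ω → G s ω = G s ω' → x0 ω = x0 ω' →
        ∀ i, |Z ω ω i - Z ω ω' i| ≤ (2 : ℝ) ^ ((k : ℤ) - (s + mu ω))) →
      Pool.KVA.MI p V x x0 ≤ δ * X → Pool.KVA.MI p N₁ V x ≤ δ * X →
      Pool.KVA.MI p N₂ V x ≤ δ * X → Pool.KVA.MI p N₂ x t ≤ δ * X →
      ∑ ω, p ω * ∑ s ∈ Finset.Ico a b,
        (if ω ∈ A ∧ (r₁ : ℤ) ≤ s + mu ω ∧ s + mu ω + r₁ + c₀ ≤ X then
          (∑ u : Fin c → Fin (2 ^ X),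
            if low p (sh N₂ u) t (X + k + 1 - (s + mu ω).toNat) Kc D ω then
              Pr (Pool.Agent.H49.Ent.cond p (fun v => (G s v, x0 v)) (G s ω, x0 ω))
                {v | (2 : ℝ) ^ (-(s + mu ω + k1)) ≤
                  |∑ i, C θ (law p (fun v => (N₂ v, t v))) X (s + mu ω).toNat u (N₂ ω) (t ω) i *
                    (Z ω ω i - Z ω v i)|}
            else 0) / (2 : ℝ) ^ (c * X)
        else 0) ≤ ε * X

/-! ### NFV: the rows are often not full, in all coordinates -/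

/-- **NFV.** In every block of rows (length `m` times that of `(H5)`) many rows are not full, in
the coordinates `M (x₁ v)`, given the reference context `x₁`. -/
def NFVStmt (c : ℕ) : Prop :=
  ∀ c₀ : ℝ, 0 < c₀ → ∃ u : ℝ, 0 < u ∧ u ≤ 1 ∧ ∀ D : ℝ, ∃ K : ℕ, ∀ (A k m : ℕ) (κ π₁ : ℝ),
    1 ≤ m → 0 < κ → κ ≤ 1 → 0 < π₁ → ∃ (π₀ : ℝ) (X₀ : ℕ), 0 < π₀ ∧ ∀ (d : DatV c) (kmax : ℕ),
      d.OK A → X₀ ≤ d.X → (kmax : ℝ) ≤ u * (m * ⌊κ * d.X⌋₊ : ℕ) → d.H5 c₀ κ π₀ →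
      ∀ (Ω ξ₁ : Type) [Fintype Ω] (Q : Ω → ℝ) (w₁ : Ω → d.Om) (x₁ : Ω → ξ₁)
        (M : ξ₁ → Fin c → Fin c → ℝ), IsLaw Q → (∀ ω, law Q w₁ ω = d.P ω) →
        Det Q x₁ (fun v => d.T (w₁ v)) → (∀ t, ZOK kmax (M t)) →
        Pr Q {v | ∃ j : ℕ, (j + 2) * (m * ⌊κ * d.X⌋₊) ≤ d.X ∧
          ∑ r ∈ Finset.Ico (j * (m * ⌊κ * d.X⌋₊)) ((j + 1) * (m * ⌊κ * d.X⌋₊)),
            wtz Q (fun v => nz (M (x₁ v)) (d.N (w₁ v))) x₁ d.X (d.X + k + 1 - r) K D v <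
              u * (m * ⌊κ * d.X⌋₊ : ℕ)} ≤ π₁

/-! ### ACT: a block of digits without holes in which the velocity is active -/

/-- The set `J` has density at least `c₂` in all blocks of length `h` inside `[j₀, j₀ + L)`. -/
def HF (J : Set ℕ) (j₀ L h : ℕ) (c₂ : ℝ) : Prop :=
  ∀ i : ℕ, j₀ ≤ i → i + h ≤ j₀ + L → c₂ * h ≤ (Set.ncard {j | j ∈ J ∧ i ≤ j ∧ j < i + h} : ℝ)

/-- **ACT.** `ρ` is the ratio of the two lengths; finitely many possible lengths `lam n * X`. -/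
def ACTVStmt (c : ℕ) : Prop :=
  ∀ (A : ℕ) (ca : ℝ), 0 < ca → ∃ (c₁ c₂ : ℝ) (k₇ : ℕ), 0 < c₁ ∧ 0 < c₂ ∧ c₂ ≤ 1 ∧
    ∀ ρ : ℝ, 0 < ρ → ρ ≤ 1 → ∃ (n₀ : ℕ) (lam : ℕ → ℝ) (q₀ : ℝ) (X₀ : ℕ), 0 < q₀ ∧
      (∀ n < n₀, 0 < lam n ∧ lam n ≤ ρ) ∧ ∀ d : DatV c, d.OK A → X₀ ≤ d.X → d.H4 ca →
        ∃ n < n₀, q₀ ≤ Pr d.P {ω | ∃ j₀ : ℕ, ((j₀ : ℝ) + lam n * d.X) ≤ (1 - c₂) * d.X ∧
          HF {j | d.act c₁ k₇ j (d.L ω) ∧ d.act c₁ k₇ (j + 1) (d.L ω)} j₀ ⌊lam n * d.X⌋₊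
            ⌊ρ * (lam n * d.X)⌋₊ c₂}

/-! ### REL: mates -/

section

variable {c : ℕ}

/-- The pair of partners is admissible for the coordinates `M`: base time `t`, mates at the time
`tm`, partner at the time `tb`, much nearer to the base. -/
def Adm (d : DatV c) (M : Fin c → Fin c → ℝ) (kz g : ℕ) (t tm tb : d.Tau) : Prop :=
  d.th tb ≠ d.th t ∧
    |d.th tb - d.th t| ≤ (2 : ℝ) ^ (-((kz : ℤ) + g + 3)) * |d.th tm - d.th t| ∧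
    (∀ i, |zc M (d.chi t tm) i| ≤ 2 ^ kz) ∧ ∀ i, |zc M (d.chi t tb) i| ≤ 2 ^ kz

/-- The sum of the scales of the two partners. -/
noncomputable def mus (d : DatV c) (t tm tb : d.Tau) : ℤ :=
  sc (d.th tm - d.th t) + sc (d.th tb - d.th t)

end

open Classical in
/-- **REL.** `w₁` base, `wm` time of the mates, `w₀` partner, `x₁` the reference context (it
determines the coordinates `M`), `x` all the times. The level of the rows is that of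
`k = kz + 4`. -/
def RELStmt (c : ℕ) : Prop :=
  ∀ (k₇ kz g : ℕ) (c₁ ε : ℝ), 0 < c₁ → 0 < ε → ∃ D₀ : ℝ, ∀ D : ℝ, D₀ ≤ D → ∀ K : ℕ,
    ∃ (r₁ : ℕ) (δ : ℝ) (C : Cov c), 0 < δ ∧ C.Unit ∧ ∀ (A kmax : ℕ) (d : DatV c), d.OK A →
      d.H2 δ → d.H3 δ →
      ∀ (Ω ξ₁ ξ : Type) [Fintype Ω] (Q : Ω → ℝ) (w₁ wm w₀ : Ω → d.Om) (x₁ : Ω → ξ₁) (x : Ω → ξ)
        (M : ξ₁ → Fin c → Fin c → ℝ), IsLaw Q →
        (∀ ω, law Q w₁ ω = d.P ω) → (∀ ω, law Q wm ω = d.P ω) → (∀ ω, law Q w₀ ω = d.P ω) →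
        (∀ v, 0 < Q v → d.L (wm v) = d.L (w₁ v) ∧ d.L (w₀ v) = d.L (w₁ v)) →
        Det Q x₁ (fun v => d.T (w₁ v)) →
        Det Q x (fun v => (x₁ v, d.T (wm v), d.T (w₀ v))) →
        Pool.KVA.MI Q (fun v => d.L (w₁ v)) x (fun _ => ()) ≤ δ * d.X →
        (∀ t, ZOK kmax (M t)) →
        ∑ v, Q v * ∑ r ∈ Finset.Ico (r₁ + A + kmax) (d.X - (r₁ + A + kmax)),
          (if Adm d (M (x₁ v)) kz g (d.T (w₁ v)) (d.T (wm v)) (d.T (w₀ v)) ∧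
              0 ≤ (r : ℤ) - mus d (d.T (w₁ v)) (d.T (wm v)) (d.T (w₀ v)) ∧
              d.act c₁ k₇ ((r : ℤ) - mus d (d.T (w₁ v)) (d.T (wm v)) (d.T (w₀ v))).toNat
                (d.L (w₁ v)) then
            (∑ u : Fin c → Fin (2 ^ d.X),
              if low Q (sh (fun v => nz (M (x₁ v)) (d.N (w₁ v))) u) x₁ (d.X + (kz + 4) + 1 - r)
                  K D v ∧
                (2 : ℝ) ^ (-(g : ℤ)) <
                  |∑ i, C ξ₁ (law Q (fun v => (nz (M (x₁ v)) (d.N (w₁ v)), x₁ v))) d.X r u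
                      (nz (M (x₁ v)) (d.N (w₁ v))) (x₁ v) i *
                    (zc (M (x₁ v)) (d.chi (d.T (w₁ v)) (d.T (wm v))) i +
                      zc (M (x₁ v)) (d.chi (d.T (w₁ v)) (d.T (w₀ v))) i)|
              then (1 : ℝ) else 0) / (2 : ℝ) ^ (c * d.X)
          else 0) ≤ ε * d.X

/-! ### ONE: the argument at one row (pure) -/

open Classical in
/-- **ONE.** `q e` is the law of the samples at the scale `e`, `φ` their value on the covector.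
`Act` is a set of depths, dense together with its shift in all blocks of length `h ≤ η n` before
the row `r`. The sums of the values of two samples are small for most pairs of samples at scales
`e`, `e'` with `r - e - e' ∈ Act`. Then most values are small. -/
def ONEStmt : Prop :=
  ∀ c₂ : ℝ, 0 < c₂ → ∃ η C₁ : ℝ, 0 < η ∧ 0 < C₁ ∧ ∀ ε₁ : ℝ, 0 < ε₁ → ∃ dd : ℝ, 0 < dd ∧
    ∀ gap : ℕ, ∃ n₁ : ℕ, ∀ (n r h : ℕ) (Act : Set ℕ) (S : Type) [Fintype S] (q : ℕ → S → ℝ)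
      (φ : S → ℝ) (ε₀ : ℝ), n₁ ≤ n → 1 ≤ h → (h : ℝ) ≤ η * n → 2 * n ≤ r → 0 ≤ ε₀ →
      (∀ e, IsLaw (q e)) →
      HF {j | j ∈ Act ∧ j + 1 ∈ Act} (r - 2 * n) (2 * n) h c₂ →
      ∑ e ∈ Finset.Ico (n / 4) n, ∑ e' ∈ Finset.Ico (n / 4) n,
        (if r - e - e' ∈ Act ∧ e' + gap ≤ e then
          ∑ a, ∑ b, (if ε₀ < |φ a + φ b| then q e a * q e' b else 0) else 0) ≤ dd * n ^ 2 →
      ∑ e ∈ Finset.Ico (n / 4) n, Pr (q e) {a | C₁ * ε₀ < |φ a|} ≤ ε₁ * n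

/-! ### the times -/

/-- The scale of a typical partner at the nominal scale `i` is `i + 2` with positive
probability, for most `i`. -/
def TCV {c : ℕ} (d : DatV c) (n : ℕ) (ε : ℝ) : Prop :=
  ∀ a b : ℕ, a + n ≤ b → b + 3 ≤ d.X →
    ∑ i ∈ Finset.Ico a b, Pr d.P {ω |
      Pr (Pool.Agent.H49.Ent.cond d.P (fun v => (d.L v, d.Ti i v)) (d.L ω, d.Ti i ω))
        {v | sc (d.th (d.T v) - d.th (d.T ω)) = i + 2} < 1 / 8} ≤ ε * ((b : ℝ) - a)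

/-- TCV. -/
def TCVStmt (c : ℕ) : Prop :=
  ∀ κ₂ ε : ℝ, 0 < κ₂ → 0 < ε → ∃ (ι : ℝ) (X₀ : ℕ), 0 < ι ∧ ∀ (d : DatV c) (A : ℕ), d.OK A →
    X₀ ≤ d.X → d.H1 ι → TCV d ⌊κ₂ * d.X⌋₊ ε

/-- Macroscopic time distances: the coarse partners. -/
def TAV {c : ℕ} (d : DatV c) (n : ℕ) (ε : ℝ) : Prop :=
  Pr (d.Qp 0) {w | |d.ta w| < (2 : ℝ) ^ (-(n : ℤ))} ≤ ε

/-- TAV. -/
def TAVStmt (c : ℕ) : Prop :=
  ∀ κ₂ ε : ℝ, 0 < κ₂ → 0 < ε → ∃ (ι : ℝ) (X₀ : ℕ), 0 < ι ∧ ∀ (d : DatV c) (A : ℕ), d.OK A →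
    X₀ ≤ d.X → d.H1 ι → TAV d ⌊κ₂ * d.X⌋₊ ε

/-- REF: the assembly for `c = 2`. -/
def REFStmt : Prop :=
  RELStmt 2 → NFVStmt 2 → ACTVStmt 2 → ONEStmt → TCVStmt 2 → TAVStmt 2 → OCMStmt 2

end Pool.OCM
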